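import Pool.Agent.H74R2.WT.Stmts

/-! Task B: semilinear additive map. -/

set_option autoImplicit false

namespace H74R2.WT

theorem t_B : T_B := by
  intro K σ x0 hx0
  obtain ⟨L, hL⟩ : ∃ L : ℝ →ₗ[K] K, L x0 ≠ 0 := by
    by_contra h
    push Not at h
    exact hx0 ((Module.forall_dual_apply_eq_zero_iff K x0).mp h)
  refine ⟨σ.toAddMonoidHom.comp L.toAddMonoidHom, ?_, ?_⟩
  · intro k x
    change σ (L ((k : ℝ) * x)) = σ k * σ (L x)
    have h1 : (k : ℝ) * x = k • x := rfl
    rw [h1, map_smul, smul_eq_mul, map_mul]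
  · change σ (L x0) ≠ 0
    exact (map_ne_zero σ).mpr hL

end H74R2.WT
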